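import Pool.Agent.Helper96.SP.RQW
import Pool.Agent.Helper8.SW.Defs

/-!
# The norms of the words (package NRM)
-/

open CategoryTheory MonoidalCategory Limits BraidedCategory

universe u v w

namespace Pool.Agent.Helper64.SW

open Pool.Agent.TH90.AB Pool.Agent.TH90.Kim Pool.Agent.Helper96.Kim Pool.Agent.Helper96.SP

variable {𝒜 : Type u} [Category.{v} 𝒜] [MonoidalCategory 𝒜] [SymmetricCategory 𝒜]
  [Preadditive 𝒜] [MonoidalPreadditive 𝒜] [Linear ℚ 𝒜] [MonoidalLinear ℚ 𝒜]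
  [hdual : ∀ X : 𝒜, HasRightDual X] {K : Type w} [Field K] [CharZero K] (F : Realisation 𝒜 K)

theorem nrm {M : 𝒜} {φ : Fam M} (hφ : PA φ) {d : ℕ} (b : Module.Basis (Fin d) K (F.V M))
    (δ : Fin d → ℚ) (hδ : ∀ i, δ i = 1 ∨ δ i = -1) (hb : ∀ i, F.par M (b i) = (δ i : K) • b i)
    (n : ℕ) (B : Module.Basis (Fin n → Fin d) K (F.V (T M n)))
    (hB : ∀ w, B w = wd F n fun j => b (w j)) (e : QS n) :
    ∃ N : (Fin n → Fin d) → ℚ, (∀ w, 0 ≤ N w) ∧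
      (∀ w, N w = 0 ↔ F.map (rh φ n e) (B w) = 0) ∧
      (∀ (σ : Equiv.Perm (Fin d)), (∀ i, δ (σ i) = δ i) → ∀ w, N (σ ∘ w) = N w) ∧
      ∀ (h : Equiv.Perm (Fin n)) (w : Fin n → Fin d),
        B.repr (F.map (rh φ n (MonoidAlgebra.single h 1 * adj e * e * MonoidAlgebra.single h⁻¹ 1))
          (B w)) w = ((N (w ∘ h) : ℚ) : K) := by
  obtain ⟨q, h0, h1, h2, h3⟩ := QWX.gen hφ b δ hδ hb n B hB e
  refine ⟨q, h0, h1, fun σ hσ w => h3 σ hσ w, fun h w => ?_⟩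
  rw [mul_assoc (MonoidAlgebra.single h 1)]
  exact h2 h w

end Pool.Agent.Helper64.SW
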